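import Pool.Agent.Lib.SBG9.Main
import Pool.Agent.Lib.SBG9.Model

/-!
# MP_98c2a6_lc, Q1, negated form

Under the continuum hypothesis there is a basically generated ultrafilter on the natural numbers
which is destroyed by Sacks forcing: in the extension the filter it generates is not an
ultrafilter. There is a model of ZFC which satisfies a form of the continuum hypothesis.
-/

namespace Pool.Agent.Results.MP_98c2a6_lc.SacksDestructible

open SBG9 Pool.Agent.Lib.BVM Pool.Agent.Lib.GITZ

theorem result :
    (∃ (M : Type 1) (E : M → M → Prop), ModelZFC M E ∧ CHs E) ∧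
    (CHs (fun x y : ZFSet.{0} => x ∈ y) → Cardinal.continuum.{0} = Cardinal.aleph 1) ∧
    (Cardinal.continuum.{0} = Cardinal.aleph 1 →
      ∃ U : Ultrafilter ℕ, Nonprincipal U ∧ BasicallyGenerated U ∧ ¬ SacksIndestructible U) :=
  ⟨exists_model_CHs, continuum_of_CHs, SBG9.main⟩

end Pool.Agent.Results.MP_98c2a6_lc.SacksDestructible
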